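import Pool.Agent.Helper74.CD.Final

/-!
# Constant depth circuits for polynomial identity tests for `k`-clique
-/

set_option autoImplicit false

namespace Pool.Agent.Results.MP_b6562f_lc.CliqueConstantDepth

open MvPolynomial Finset

/-- The polynomial in the variables `x e`, `e` a pair of vertices, and auxiliary variables, with `x e` replaced by `0`
for every `e` which is not an edge of the graph `G`. -/
noncomputable def restrict {n : ℕ} {Y F : Type} [Field F] (G : SimpleGraph (Fin n))
    (f : MvPolynomial (Sym2 (Fin n) ⊕ Y) F) : MvPolynomial (Sym2 (Fin n) ⊕ Y) F :=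
  open Classical in
  aeval (Sum.elim (fun e => if e ∈ G.edgeSet then X (Sum.inl e) else 0) (fun y => X (Sum.inr y))) f

/-- `f` is a polynomial identity test for `k`-clique: it is multilinear in the edge variables, and for every graph `G` on
the `n` vertices it is a nonzero polynomial on `G` iff `G` has a `k`-clique. -/
def IsTest {n : ℕ} {Y F : Type} [Field F] (k : ℕ) (f : MvPolynomial (Sym2 (Fin n) ⊕ Y) F) : Prop :=
  (∀ e : Sym2 (Fin n), degreeOf (Sum.inl e) f ≤ 1) ∧
    ∀ G : SimpleGraph (Fin n), restrict G f ≠ 0 ↔ ∃ C : Finset (Fin n), G.IsNClique k C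

/-- `P` is computed by an arithmetic circuit over `F` of product-depth `Δ` and size `s`: the product gates are
`y 0, …, y (r - 1)`; the gate `y j` is the product of `m j` factors (unbounded fan-in), each a linear combination over `F`
of `1`, of the variables and of gates `y j'` of smaller depth, `dep j' < dep j < Δ`; and `P` is a linear combination of `1`,
of the variables and of the gates. Linear combinations are free; the size is the number of the product gates plus the sum
of their fan-ins. -/
def Computes {σ F : Type} [Field F] (Δ s : ℕ) (P : MvPolynomial σ F) : Prop :=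
  ∃ (r : ℕ) (y : Fin r → MvPolynomial σ F) (dep m : Fin r → ℕ) (g : (j : Fin r) → Fin (m j) → MvPolynomial σ F),
    (∀ j, dep j < Δ) ∧ (∀ j, y j = ∏ i, g j i) ∧
    (∀ j i, g j i ∈ Submodule.span F ({1} ∪ Set.range X ∪ {h | ∃ j', dep j' < dep j ∧ h = y j'})) ∧
    P ∈ Submodule.span F ({1} ∪ Set.range X ∪ Set.range y) ∧ ∑ j, (m j + 1) ≤ s

/-- For every `Δ`, every polynomial identity test for `k`-clique on `n` vertices over any field needs arithmetic circuits
of product-depth `Δ` of size `(n - k) ^ (min k (log (n - k))) ^ ε`, `ε = 4 ^ (-Δ-1)`. -/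
theorem result (Δ : ℕ) : ∃ k₀ : ℕ, ∀ (F : Type) [Field F] (Y : Type) (n k s : ℕ)
    (f : MvPolynomial (Sym2 (Fin n) ⊕ Y) F), k₀ ≤ k → k + k₀ ≤ n → IsTest k f → Computes Δ s f →
    ((n - k : ℕ) : ℝ) ^ ((min (k : ℝ) (Real.log ((n - k : ℕ) : ℝ))) ^ (1 / (4 : ℝ) ^ (Δ + 1))) ≤ s := by
  obtain ⟨k₀, H⟩ := CDep.final Δ
  refine ⟨k₀, fun F _ Y n k s f hk hkn hf hc => H F Y n k s f hk hkn ?_ hf.2 hc⟩
  intro m hm e
  exact (monomial_le_degreeOf (Sum.inl e) (mem_support_iff.2 hm)).trans (hf.1 e)

end Pool.Agent.Results.MP_b6562f_lc.CliqueConstantDepth
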