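import Pool.Agent.Helper74.Clique.DetMain

/-!
# Determinantal complexity of polynomial identity tests for `k`-clique
-/

set_option autoImplicit false

namespace Pool.Agent.Results.MP_b6562f_lc.CliqueDeterminants

open MvPolynomial

/-- The polynomial in the variables `x e`, `e` a pair of vertices, and `l` auxiliary variables, with `x e` replaced by `0`
for every `e` which is not an edge of the graph `G`. -/
noncomputable def restrict {n l : ℕ} (G : SimpleGraph (Fin n)) (f : MvPolynomial (Sym2 (Fin n) ⊕ Fin l) ℂ) :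
    MvPolynomial (Sym2 (Fin n) ⊕ Fin l) ℂ :=
  open Classical in
  aeval (Sum.elim (fun e => if e ∈ G.edgeSet then X (Sum.inl e) else 0) (fun y => X (Sum.inr y))) f

/-- `f` is a polynomial identity test for `k`-clique: it is multilinear in the edge variables, and for every graph `G` on
the `n` vertices it is a nonzero polynomial on `G` iff `G` has a `k`-clique. -/
def IsTest {n l : ℕ} (k : ℕ) (f : MvPolynomial (Sym2 (Fin n) ⊕ Fin l) ℂ) : Prop :=
  (∀ e : Sym2 (Fin n), degreeOf (Sum.inl e) f ≤ 1) ∧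
    ∀ G : SimpleGraph (Fin n), restrict G f ≠ 0 ↔ ∃ C : Finset (Fin n), G.IsNClique k C

/-- If an identity test for `k`-clique on `n` vertices is a limit, coefficient by coefficient, of determinants of `M × M`
matrices of affine linear forms over `ℂ`, then `M ≥ c (n - k) (min k (n - k)) ^ (5 / 2)`. -/
theorem result : ∃ c : ℝ, 0 < c ∧ ∃ k0 : ℕ, ∀ (n k l M : ℕ) (f : MvPolynomial (Sym2 (Fin n) ⊕ Fin l) ℂ),
    k0 ≤ k → k + k0 ≤ n → IsTest k f →
    (∀ ε : ℝ, 0 < ε → ∃ (A₀ : Matrix (Fin M) (Fin M) ℂ) (A : Sym2 (Fin n) ⊕ Fin l → Matrix (Fin M) (Fin M) ℂ),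
      ∀ s, ‖coeff s (A₀.map C + ∑ v, (X v : MvPolynomial (Sym2 (Fin n) ⊕ Fin l) ℂ) • (A v).map C).det -
        coeff s f‖ < ε) →
    c * (((n - k : ℕ) : ℝ) * ((min k (n - k) : ℕ) : ℝ) ^ (5 / 2 : ℝ)) ≤ M := by
  obtain ⟨c, hc, k0, H⟩ := Clique.dc_test
  refine ⟨c, hc, k0, fun n k l M f hk hkn hf h => H n k M (Fin l) f hk hkn hf fun ε hε => ?_⟩
  obtain ⟨A₀, A, hA⟩ := h ε hε
  refine ⟨_, ⟨A₀, A, fun x => ?_⟩, hA⟩
  rw [← MvPolynomial.coe_aeval_eq_eval, RingHom.coe_coe, AlgHom.map_det]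
  congr 1
  ext i j
  simp [Matrix.sum_apply, AlgHom.mapMatrix_apply]

end Pool.Agent.Results.MP_b6562f_lc.CliqueDeterminants
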