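import Pool.Agent.Helper74.WCO.Top

/-!
# Interconnected bicircular and cobicircular minors: the conflicts of one kind split

Problem MP_5165fa_co (Geelen).  Let `N₁ = M / C₁ \ D₁ ≅ B(G_n^+)` and `N₂ = M / C₂ \ D₂ ≅ B^*(G_n^+)`
be minors of `M` on disjoint ground sets `E₁`, `E₂`.  An element outside of them can be in conflict
in two ways: contracted for `N₁` and deleted for `N₂` (`C₁ ∩ D₂`), or deleted for `N₁` and
contracted for `N₂` (`D₁ ∩ C₂`).  For all integers `k ≥ 1` and `q ≥ 0` there is `n` such that, if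
`κ_M(E₁, E₂) ≥ n` and

* `C₁ ∩ D₂ = F ∪ G`, where not contracting `F` changes the rank of `E₁` by at most `q` and, in the
  dual, not contracting `G` changes the rank of `E₂` by at most `q`, or
* `D₁ ∩ C₂ = F ∪ G`, where contracting `F` as well changes the rank of `E₁` by at most `q` and, in
  the dual, contracting `G` as well changes the rank of `E₂` by at most `q`,

then `M` has a `U_{k,2k}`-minor.  In particular this holds when `|C₁ ∩ D₂| ≤ q` or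
`|D₁ ∩ C₂| ≤ q`, for example when one of `N₁`, `N₂` is a restriction or a contraction of `M`.
-/

namespace Pool.Agent.Results.MP_5165fa_co.OneKindSplits

open Set BIC BICS
open scoped Matroid

universe u

theorem result (k : ℕ) (hk : 0 < k) (q : ℕ) : ∃ n : ℕ, ∀ (α : Type u) (M : Matroid α), M.Finite →
    ∀ C₁ D₁ C₂ D₂ : Set α, C₁ ⊆ M.E → D₁ ⊆ M.E → C₂ ⊆ M.E → D₂ ⊆ M.E →
    Disjoint C₁ D₁ → Disjoint C₂ D₂ → Disjoint (M ／ C₁ ＼ D₁).E (M ／ C₂ ＼ D₂).E →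
    IsBicircular (M ／ C₁ ＼ D₁) (GPlus n) →
    IsBicircular (M ／ C₂ ＼ D₂)✶ (GPlus n) →
    (∀ X : Set α, (M ／ C₁ ＼ D₁).E ⊆ X → X ⊆ M.E \ (M ／ C₂ ＼ D₂).E →
      (n : ℕ∞) + M.eRk M.E ≤ M.eRk X + M.eRk (M.E \ X)) →
    (∃ F G : Set α, C₁ ∩ D₂ = F ∪ G ∧
        (M ／ (C₁ \ F)).eRk (M ／ C₁ ＼ D₁).E ≤ (M ／ C₁).eRk (M ／ C₁ ＼ D₁).E + q ∧
        (M✶ ／ (D₂ \ G)).eRk (M ／ C₂ ＼ D₂).E ≤ (M✶ ／ D₂).eRk (M ／ C₂ ＼ D₂).E + q) ∨
      (∃ F G : Set α, D₁ ∩ C₂ = F ∪ G ∧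
        (M ／ C₁).eRk (M ／ C₁ ＼ D₁).E ≤ (M ／ (C₁ ∪ F)).eRk (M ／ C₁ ＼ D₁).E + q ∧
        (M✶ ／ D₂).eRk (M ／ C₂ ＼ D₂).E ≤ (M✶ ／ (D₂ ∪ G)).eRk (M ／ C₂ ＼ D₂).E + q) →
    ∃ N : Matroid α, N ≤m M ∧ N.E.ncard = 2 * k ∧ ∀ B, N.IsBase B ↔ B ⊆ N.E ∧ B.ncard = k :=
  one_kind_splits hk q

end Pool.Agent.Results.MP_5165fa_co.OneKindSplits
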