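import Pool.Agent.AVD.Core9
import Pool.Agent.AV.Value
import Pool.Agent.AV.Place
import Pool.Agent.BB.Combine
import Pool.Agent.LIFT.Average4
import Pool.Agent.LIFT.AvgPerm4
import Pool.Agent.AVD.Rows
import Pool.Agent.AVD.Dag

/-!
# Branch and cut with semidefinite relaxations does not refute random 3-CNF formulas
-/

set_option autoImplicit false

open scoped BigOperators Matrix

namespace Pool.Agent.Results.MP_b6562f_lc.RandomThreeSatDags

/-- A 3-clause on the variables `0, ..., n - 1`: a disjunction of three literals on distinct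
variables. The literal `i` is true if the variable `var i` has the value `sign i`. -/
structure Clause (n : ℕ) where
  var : Fin 3 → Fin n
  sign : Fin 3 → Bool
  distinct : Function.Injective var

/-- The clause is true at the assignment `x`. -/
def Clause.Sat {n : ℕ} (C : Clause n) (x : Fin n → Bool) : Prop :=
  ∃ i, x (C.var i) = C.sign i

/-- A clause on `m` variables, placed on `n` variables: the variable `j` becomes `f j`, and then the
variables `v` with `z v = true` are complemented. -/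
def Clause.place {m n : ℕ} (f : Fin m ↪ Fin n) (z : Fin n → Bool) (C : Clause m) : Clause n where
  var i := f (C.var i)
  sign i := xor (C.sign i) (z (f (C.var i)))
  distinct := f.injective.comp C.distinct

/-- A 3-CNF formula: a finite sequence of 3-clauses. -/
structure Formula (n : ℕ) where
  len : ℕ
  clause : Fin len → Clause n

/-- A formula on `m` variables, placed on `n` variables: the variable `j` becomes `f j`, and then
the variables `v` with `z v = true` are complemented. -/
def Formula.place {m n : ℕ} (f : Fin m ↪ Fin n) (z : Fin n → Bool) (Φ : Formula m) :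
    Formula n where
  len := Φ.len
  clause j := (Φ.clause j).place f z

/-- The value of the formula at `x`: the fraction of its clauses which are true at `x`. -/
noncomputable def Formula.value {n : ℕ} (Φ : Formula n) (x : Fin n → Bool) : ℝ :=
  (Nat.card {j : Fin Φ.len // (Φ.clause j).Sat x} : ℝ) / Φ.len

/-- A semidefinite relaxation of 3-SAT with `n` variables: its variables are a real `size × size`
matrix and `free` real numbers, subject to arbitrary affine equations (they define the affine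
subspace `space`). Every formula has an arbitrary affine objective function, and every set of clauses
has `K` arbitrary affine functions, its cuts. -/
structure Relaxation (n K : ℕ) where
  free : ℕ
  size : ℕ
  space : AffineSubspace ℝ ((Fin free → ℝ) × Matrix (Fin size) (Fin size) ℝ)
  obj : Formula n → ((Fin free → ℝ) × Matrix (Fin size) (Fin size) ℝ) →ᵃ[ℝ] ℝ
  cut : Set (Clause n) → Fin K → ((Fin free → ℝ) × Matrix (Fin size) (Fin size) ℝ) →ᵃ[ℝ] ℝ

/-- The feasible points: the equations hold and the matrix is positive semidefinite. -/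
def Relaxation.feasible {n K : ℕ} (R : Relaxation n K) :
    Set ((Fin R.free → ℝ) × Matrix (Fin R.size) (Fin R.size) ℝ) :=
  {p | p ∈ R.space ∧ p.2.PosSemidef}

/-- The assignment `x` is represented in the relaxation: there is a feasible point at which the
objective function of every formula is the value of the formula at `x`, all cuts have absolute value
at most one, and the cuts of a set of clauses which are all true at `x` are at most zero. -/
def Relaxation.Represents {n K : ℕ} (R : Relaxation n K) (x : Fin n → Bool) : Prop :=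
  ∃ p ∈ R.feasible, (∀ Φ, R.obj Φ p = Φ.value x) ∧
    ∀ Ψ k, |R.cut Ψ k p| ≤ 1 ∧ ((∀ C ∈ Ψ, C.Sat x) → R.cut Ψ k p ≤ 0)

/-- The relaxation refutes `Φ` with the parameter `h`: there is no feasible point at which the
objective function of `Φ` is at least `1 - exp (- h)` and the cuts of all sets of at most `h` clauses
of `Φ` are at most `exp (- h)`. -/
def Relaxation.Refutes {n K : ℕ} (R : Relaxation n K) (h : ℝ) (Φ : Formula n) : Prop :=
  ∀ p ∈ R.feasible, R.obj Φ p < 1 - Real.exp (-h) ∨
    ∃ T : Finset (Fin Φ.len), (T.card : ℝ) ≤ h ∧ ∃ k, Real.exp (-h) < R.cut (Φ.clause '' T) k p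

/-- A partial assignment: `ρ v` is the value of the variable `v`, `none` if `v` has no value. -/
abbrev Partial (n : ℕ) : Type := Fin n → Option Bool

/-- The assignment `x` extends the partial assignment `ρ`. -/
def Extends {n : ℕ} (x : Fin n → Bool) (ρ : Partial n) : Prop :=
  ∀ v, ρ v = none ∨ ρ v = some (x v)

/-- A scheme for 3-SAT with `n` variables: for every partial assignment `ρ` a list of `J`
relaxations `R ρ j`. -/
abbrev Scheme (n J K : ℕ) : Type := Partial n → Fin J → Relaxation n K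

/-- The assignment `x` is represented in the scheme: it is represented in all the relaxations of all
the partial assignments which it extends. -/
def SchemeRepresents {n J K : ℕ} (R : Scheme n J K) (x : Fin n → Bool) : Prop :=
  ∀ ρ, Extends x ρ → ∀ j, (R ρ j).Represents x

/-- The partial assignment `ρ` is a part of `σ`. -/
def Part {n : ℕ} (ρ σ : Partial n) : Prop := ∀ v, ρ v = none ∨ ρ v = σ v

/-- A node of a search dag with the node set `Fin k`: the search stops at a `leaf j` and uses the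
relaxation `j` of the list; at a `branch v u₀ u₁` it asks for the value of the variable `v` and
continues at the node `u₀` if the value is `false` and at the node `u₁` if it is `true`. -/
inductive Node (n J k : ℕ) : Type where
  | leaf (j : Fin J) : Node n J k
  | branch (v : Fin n) (u₀ u₁ : Fin k) : Node n J k

/-- A search dag. Each node `u` has a label, a partial assignment: what the search remembers at `u`.
The label of the root is empty. The label of a child is a part of the label of the node together with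
the new value of the variable: the search may forget values, and a node may be the child of many
nodes. The ranks decrease along the edges. -/
structure SearchDag (n J : ℕ) where
  size : ℕ
  label : Fin size → Partial n
  node : Fin size → Node n J size
  rank : Fin size → ℕ
  root : Fin size
  label_root : label root = fun _ => none
  child : ∀ u v u₀ u₁, node u = .branch v u₀ u₁ →
    (rank u₀ < rank u ∧ Part (label u₀) (Function.update (label u) v (some false))) ∧
    (rank u₁ < rank u ∧ Part (label u₁) (Function.update (label u) v (some true)))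

/-- The cost of a node: one, plus the size of the relaxation if the node is a leaf. -/
def nodeCost {n J K k : ℕ} (R : Scheme n J K) (ρ : Partial n) : Node n J k → ℕ
  | .leaf j => 1 + (R ρ j).size
  | .branch _ _ _ => 1

/-- The cost of a search dag: the sum of the costs of its nodes. -/
def SearchDag.cost {n J K : ℕ} (R : Scheme n J K) (G : SearchDag n J) : ℕ :=
  ∑ u, nodeCost R (G.label u) (G.node u)

/-- The search dag refutes `Φ`: the relaxations which are used at the leaves refute it. -/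
def SearchDag.Refutes {n J K : ℕ} (R : Scheme n J K) (h : ℝ) (Φ : Formula n)
    (G : SearchDag n J) : Prop :=
  ∀ u j, G.node u = .leaf j → (R (G.label u) j).Refutes h Φ

/-- The scheme refutes `Φ` with the parameter `h` in depth `D`: some search dag, whose root has at
most the rank `D`, does it at a cost of at most `exp h`. -/
def SchemeRefutes {n J K : ℕ} (R : Scheme n J K) (h : ℝ) (D : ℕ∞) (Φ : Formula n) : Prop :=
  ∃ G : SearchDag n J, (G.rank G.root : ℕ∞) ≤ D ∧ (G.cost R : ℝ) ≤ Real.exp h ∧ G.Refutes R h Φ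

open Classical in
/-- The probability that the random scheme `R` (`R ω` has the probability `p ω`) represents a
uniformly random assignment. -/
noncomputable def probRepresents {n J K : ℕ} {Ω : Type} [Fintype Ω] (p : Ω → ℝ)
    (R : Ω → Scheme n J K) : ℝ :=
  ∑ ω, p ω * (((Finset.univ : Finset (Fin n → Bool)).filter fun x =>
    SchemeRepresents (R ω) x).card / (2 : ℝ) ^ n)

open Classical in
/-- The probability that the random scheme `R` refutes `Φ` with the parameter `h` in depth `D` after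
`Φ` has been placed on the `n` variables by a uniformly random injection and a uniformly random
complementation. -/
noncomputable def probRefutes {m n J K : ℕ} {Ω : Type} [Fintype Ω] (p : Ω → ℝ)
    (R : Ω → Scheme n J K) (h : ℝ) (D : ℕ∞) (Φ : Formula m) : ℝ :=
  ∑ ω, p ω * (((Finset.univ : Finset ((Fin m ↪ Fin n) × (Fin n → Bool))).filter fun q =>
    SchemeRefutes (R ω) h D (Φ.place q.1 q.2)).card /
      (Fintype.card (Fin m ↪ Fin n) * (2 : ℝ) ^ n))

open SDX

theorem place_sat {m n : ℕ} (f : Fin m ↪ Fin n) (z : Fin n → Bool) (C : Clause m)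
    (x : Fin n → Bool) :
    (C.place f z).Sat x ↔ C.Sat fun v => xor (x (f v)) (z (f v)) := by
  simp only [Clause.Sat, Clause.place]
  refine exists_congr fun i => ?_
  cases x (f (C.var i)) <;> cases C.sign i <;> cases z (f (C.var i)) <;> decide

theorem place_value {m n : ℕ} (f : Fin m ↪ Fin n) (z : Fin n → Bool) (Φ : Formula m)
    (x : Fin n → Bool) :
    (Φ.place f z).value x = Φ.value fun v => xor (x (f v)) (z (f v)) := by
  simp only [Formula.value, Formula.place, place_sat]

theorem place_congr {m n : ℕ} {f f' : Fin m ↪ Fin n} (z : Fin n → Bool) (C : Clause m)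
    (h : ∀ i, f (C.var i) = f' (C.var i)) : C.place f z = C.place f' z := by
  simp only [Clause.place, h]

open Classical in
theorem value_eq {m M : ℕ} (hM : 0 < M) (Φ : Fin M → Clause m) (y : Fin m → Bool) :
    (Formula.mk M Φ).value y = 1 - (((Finset.univ : Finset (Fin M)).filter
      fun e => ∀ i, y ((Φ e).var i) ≠ (Φ e).sign i).card : ℝ) / M := by
  have hM' : (0 : ℝ) < M := by exact_mod_cast hM
  have h1 : Nat.card {j : Fin M // (Φ j).Sat y} + ((Finset.univ : Finset (Fin M)).filter
      fun e => ∀ i, y ((Φ e).var i) ≠ (Φ e).sign i).card = M := by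
    rw [Nat.card_eq_fintype_card, Fintype.card_subtype]
    have h2 := Finset.card_filter_add_card_filter_not (s := (Finset.univ : Finset (Fin M)))
      (fun e => (Φ e).Sat y)
    rw [Finset.card_univ, Fintype.card_fin] at h2
    refine Eq.trans ?_ h2
    congr 2
    ext e
    simp [Clause.Sat]
  have h3 : (Nat.card {j : Fin M // (Φ j).Sat y} : ℝ) = M - (((Finset.univ :
      Finset (Fin M)).filter fun e => ∀ i, y ((Φ e).var i) ≠ (Φ e).sign i).card : ℝ) := by
    rw [eq_sub_iff_add_eq]
    exact_mod_cast h1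
  rw [Formula.value]
  change (Nat.card {j : Fin M // (Φ j).Sat y} : ℝ) / (M : ℝ) = _
  rw [h3, sub_div, div_self hM'.ne']

open Classical in
/-- bookkeeping of averages -/
theorem avg_prod {Ω P Z : Type} [Fintype Ω] [Fintype P] [Fintype Z] (p : Ω → ℝ)
    (C : Ω → P → Z → Prop) (N₁ N₂ : ℝ) (h₁ : N₁ ≠ 0) (h₂ : N₂ ≠ 0) :
    ∑ π : P, ∑ ω : Ω × Z, (if C ω.1 π ω.2 then p ω.1 / N₂ else 0)
      = (∑ ω, p ω * (((Finset.univ : Finset (P × Z)).filter fun q => C ω q.1 q.2).card
          / (N₁ * N₂))) * N₁ := by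
  rw [Finset.sum_comm, Fintype.sum_prod_type, Finset.sum_mul]
  refine Finset.sum_congr rfl fun ω _ => ?_
  rw [← Finset.sum_boole, Fintype.sum_prod_type, Finset.sum_comm]
  have h3 : p ω * ((∑ x : P, ∑ y : Z, (if C ω x y then (1 : ℝ) else 0)) / (N₁ * N₂)) * N₁
      = ∑ x : P, ∑ y : Z, (if C ω x y then p ω / N₂ else 0) := by
    have h4 : p ω * ((∑ x : P, ∑ y : Z, (if C ω x y then (1 : ℝ) else 0)) / (N₁ * N₂)) * N₁
        = (p ω / N₂) * ∑ x : P, ∑ y : Z, (if C ω x y then (1 : ℝ) else 0) := by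
      field_simp
    rw [h4, Finset.mul_sum]
    refine Finset.sum_congr rfl fun x _ => ?_
    rw [Finset.mul_sum]
    refine Finset.sum_congr rfl fun y _ => ?_
    rw [mul_ite, mul_one, mul_zero]
  exact h3.symm

theorem cost_size_le {n J K : ℕ} (R : Scheme n J K) (G : SearchDag n J) : G.size ≤ G.cost R := by
  calc G.size = ∑ _u : Fin G.size, 1 := by simp
    _ ≤ G.cost R := Finset.sum_le_sum fun u _ => by
      rcases G.node u with j | ⟨v, u₀, u₁⟩
      · exact Nat.le_add_right _ _
      · exact le_rfl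

theorem cost_leaf {n J K : ℕ} (R : Scheme n J K) (G : SearchDag n J) (u : Fin G.size) (j : Fin J)
    (hm : G.node u = .leaf j) : (R (G.label u) j).size ≤ G.cost R := by
  refine le_trans (le_trans ?_ (le_of_eq (show nodeCost R (G.label u) (.leaf j)
    = nodeCost R (G.label u) (G.node u) by rw [hm]))) (Finset.single_le_sum
      (f := fun u => nodeCost R (G.label u) (G.node u)) (fun _ _ => Nat.zero_le _)
      (Finset.mem_univ u))
  exact Nat.le_add_left _ _

/-- the move at a node -/
def Node.move {n J k : ℕ} : Node n J k → Fin J ⊕ (Fin n × (Bool → Fin k))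
  | .leaf j => .inl j
  | .branch v u₀ u₁ => .inr (v, fun a => if a then u₁ else u₀)

theorem move_leaf {n J k : ℕ} {N : Node n J k} {j : Fin J} (h : N.move = .inl j) :
    N = .leaf j := by
  rcases N with j' | ⟨v, u₀, u₁⟩
  · rw [Node.move] at h
    rw [Sum.inl.inj h]
  · rw [Node.move] at h
    exact absurd h (by simp)

theorem dag_rules {n J : ℕ} (G : SearchDag n J) :
    ∀ u v c, (G.node u).move = .inr (v, c) → ∀ a, G.rank (c a) < G.rank u ∧
      ∀ w x, G.label (c a) w = some x →
        Function.update (G.label u) v (some a) w = some x := by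
  intro u v c hm a
  rcases hN : G.node u with j | ⟨v', u₀, u₁⟩
  · simp only [hN, Node.move] at hm
    exact absurd hm (by simp)
  · simp only [hN, Node.move] at hm
    obtain ⟨rfl, rfl⟩ := Prod.mk.inj (Sum.inr.inj hm)
    obtain ⟨⟨h1, h2⟩, h3, h4⟩ := G.child u v' u₀ u₁ hN
    cases a with
    | false =>
      refine ⟨h1, fun w b hw => ?_⟩
      simp only [Bool.false_eq_true, if_false] at hw
      rcases h2 w with h5 | h5
      · rw [hw] at h5
        exact absurd h5 (by simp)
      · rw [← h5, hw]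
    | true =>
      refine ⟨h3, fun w b hw => ?_⟩
      simp only [if_true] at hw
      rcases h4 w with h5 | h5
      · rw [hw] at h5
        exact absurd h5 (by simp)
      · rw [← h5, hw]

/-- the property of the pseudo-measure which concerns certificates -/
def CertOK {m M : ℕ} (n b : ℕ) (c γ' : ℝ) (a : Fin M → (Fin 3 ↪ Fin m)) (s : Fin M → Fin 3 → Bool)
    (mu : (Fin m → Fin b) → (Fin m × Fin b → Bool) → ℝ) : Prop :=
  ∀ (r J : ℕ) (E : Type) [AddCommGroup E] [Module ℝ E]
    (𝓐 : AffineSubspace ℝ (E × Matrix (Fin r) (Fin r) ℝ))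
    (𝒳 : Finset (Fin m × Fin b → Bool)) (𝒮 : Finset (Fin m → Fin b))
    (pt : (Fin m × Fin b → Bool) → E × Matrix (Fin r) (Fin r) ℝ)
    (obj : (Fin m → Fin b) → (E × Matrix (Fin r) (Fin r) ℝ) →ᵃ[ℝ] ℝ)
    (cut : Finset (Fin M) → Fin J → (Fin m → Fin b) → (E × Matrix (Fin r) (Fin r) ℝ) →ᵃ[ℝ] ℝ),
    (r : ℝ) ≤ Real.exp (c * n) → (J : ℝ) ≤ Real.exp (c * n) →
    (∀ x ∈ 𝒳, pt x ∈ 𝓐 ∧ (pt x).2.PosSemidef) →
    (∀ S ∈ 𝒮, ∀ x ∈ 𝒳, obj S (pt x) = 1 - (((Finset.univ : Finset (Fin M)).filter
      fun e => ∀ i, rs S x (a e i) ≠ s e i).card : ℝ) / M) →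
    (∀ T k S S', (∀ e ∈ T, ∀ t, S (a e t) = S' (a e t)) → cut T k S = cut T k S') →
    (∀ T k S, ∀ x ∈ 𝒳, |cut T k S (pt x)| ≤ 1) →
    (∀ T k S, ∀ x ∈ 𝒳, (∀ e ∈ T, ∃ i, rs S x (a e i) = s e i) → cut T k S (pt x) ≤ 0) →
    (∀ S ∈ 𝒮, ∀ p ∈ 𝓐, p.2.PosSemidef → obj S p < 1 - Real.exp (-(c * n)) ∨
      ∃ T : Finset (Fin M), (T.card : ℝ) ≤ c * n ∧ ∃ k, Real.exp (-(c * n)) < cut T k S p) →
    ∑ S ∈ 𝒮, ∑ x ∈ 𝒳, mu S x ≤ γ' * ((b : ℝ) ^ m * 2 ^ (m * b))

/-- the point of the big cube -/
noncomputable def big {n m b : ℕ} (e : Fin m × Fin b ↪ Fin n) (z : Fin n → Bool)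
    (x : Fin m × Fin b → Bool) :
    Fin n → Bool := fun v => xor (Function.extend e x (fun _ => false) v) (z v)

/-- one relaxation: the mass of the rows which it refutes and the columns which it represents -/
theorem relax_mass {n m b M K : ℕ} (hM : 0 < M) (c γ' : ℝ) (hγ' : 0 ≤ γ') (Φ : Fin M → Clause m)
    (mu : (Fin m → Fin b) → (Fin m × Fin b → Bool) → ℝ)
    (hno : CertOK n b c γ' (fun e => ⟨(Φ e).var, (Φ e).distinct⟩) (fun e => (Φ e).sign) mu)
    (hK : (K : ℝ) ≤ Real.exp (c * n)) (e : Fin m × Fin b ↪ Fin n) (z : Fin n → Bool)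
    (fS : (Fin m → Fin b) → (Fin m ↪ Fin n)) (hfS : ∀ S j, fS S j = e (j, S j))
    (R₁ : Relaxation n K) (𝒮' : Finset (Fin m → Fin b)) (𝒳' : Finset (Fin m × Fin b → Bool))
    (h𝒮' : ∀ S ∈ 𝒮', R₁.Refutes (c * n) ((Formula.mk M Φ).place (fS S) z) ∧
      (R₁.size : ℝ) ≤ Real.exp (c * n))
    (hrep : ∀ x ∈ 𝒳', R₁.Represents (big e z x)) :
    ∑ S ∈ 𝒮', ∑ x ∈ 𝒳', mu S x ≤ γ' * ((b : ℝ) ^ m * 2 ^ (m * b)) := by
  classical
  rcases 𝒮'.eq_empty_or_nonempty with hemp | ⟨S₀, hS₀⟩
  · rw [hemp, Finset.sum_empty]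
    positivity
  let pt : (Fin m × Fin b → Bool) →
      (Fin R₁.free → ℝ) × Matrix (Fin R₁.size) (Fin R₁.size) ℝ :=
    fun x => if hx : x ∈ 𝒳' then (hrep x hx).choose else 0
  have hpt : ∀ x ∈ 𝒳', pt x ∈ R₁.feasible ∧
      (∀ Φ, R₁.obj Φ (pt x) = Φ.value (big e z x)) ∧ ∀ Ψ k, |R₁.cut Ψ k (pt x)| ≤ 1 ∧
        ((∀ C ∈ Ψ, C.Sat (big e z x)) → R₁.cut Ψ k (pt x) ≤ 0) := by
    intro x hx
    have := (hrep x hx).choose_spec
    simp only [pt, hx, dif_pos]
    exact this
  have h7 : ∀ S x j, xor (big e z x (fS S j)) (z (fS S j)) = rs S x j := by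
    intro S x j
    rw [hfS]
    simp only [big]
    rw [e.injective.extend_apply]
    change xor (xor (x (j, S j)) _) _ = x (j, S j)
    cases x (j, S j) <;> cases z (e (j, S j)) <;> rfl
  refine hno R₁.size K (Fin R₁.free → ℝ) R₁.space 𝒳' 𝒮' pt
    (fun S => R₁.obj ((Formula.mk M Φ).place (fS S) z))
    (fun T k S => R₁.cut ((fun e' : Fin M => (Φ e').place (fS S) z) '' (T : Set (Fin M))) k)
    (h𝒮' S₀ hS₀).2 hK
    (fun x hx => (hpt x hx).1) (fun S _ x hx => ?_) (fun T k S S' hSS' => ?_)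
    (fun T k S x hx => ((hpt x hx).2.2 _ k).1) (fun T k S x hx hsat => ?_)
    (fun S hS q hq hq2 => ?_)
  · rw [(hpt x hx).2.1, place_value, value_eq hM]
    simp only [h7]
    rfl
  · congr 1
    refine Set.image_congr fun e' he' => place_congr _ _ fun i => ?_
    rw [hfS, hfS]
    exact congrArg (fun j => e (_, j)) (hSS' e' (Finset.mem_coe.1 he') i)
  · refine ((hpt x hx).2.2 _ k).2 fun C hC => ?_
    obtain ⟨e', he', rfl⟩ := hC
    refine (place_sat _ _ _ _).2 ?_
    simp only [h7]
    exact hsat e' (Finset.mem_coe.1 he')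
  · exact (h𝒮' S hS).1 q ⟨hq, hq2⟩

theorem big_injective {n m b : ℕ} (e : Fin m × Fin b ↪ Fin n) (z : Fin n → Bool) :
    Function.Injective (big e z) := by
  intro x x' h
  funext p
  have h1 := congrFun h (e p)
  simp only [big, e.injective.extend_apply] at h1
  revert h1
  cases x p <;> cases x' p <;> cases z (e p) <;> simp

open Classical in
/-- one scheme which represents nearly all assignments -/
theorem two_fixed {n m b M r : ℕ} (hM : 0 < M) (hb : 0 < b) (ε c γ : ℝ)
    (hmb : m * b ≤ n) (hnm : n ≤ m * b + 3 * b) (Φ : Fin M → Clause m)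
    (hΦ : AVD.Meas9 n b r ε c γ (fun e => ⟨(Φ e).var, (Φ e).distinct⟩) fun e => (Φ e).sign)
    (J K : ℕ) (hJ : (J : ℝ) ≤ Real.exp (c * n)) (hK : (K : ℝ) ≤ Real.exp (c * n))
    (R : Scheme n J K) (hR : (((Finset.univ : Finset (Fin n → Bool)).filter fun x =>
      ¬ SchemeRepresents R x).card : ℝ) ≤ Real.exp (-(ε * n)) * 2 ^ n) :
    (((Finset.univ : Finset ((Fin m ↪ Fin n) × (Fin n → Bool))).filter fun q =>
      SchemeRefutes R (c * n) ⊤ ((Formula.mk M Φ).place q.1 q.2)).card : ℝ)
      ≤ Real.exp (-(2 * (c * n))) * (Fintype.card (Fin m ↪ Fin n) * (2 : ℝ) ^ n) := by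
  unfold AVD.Meas9 at hΦ
  obtain ⟨d₀, q, k, mu, P, γ', θ₁, ν, -, hγ'0, -, -, -, hd₀, -, -, -, -, -, hlocal, heps, hpoint,
    hnarrow, hkill, -, -, hno⟩ := hΦ
  have hcard : Fintype.card (Fin m × Fin b) ≤ Fintype.card (Fin n) := by
    rw [Fintype.card_prod, Fintype.card_fin, Fintype.card_fin, Fintype.card_fin]
    exact hmb
  obtain ⟨e₀⟩ : Nonempty (Fin m × Fin b ↪ Fin n) := Function.Embedding.nonempty_of_card_le hcard
  let V : Fin m ↪ Fin n :=
    ⟨fun j => e₀ (j, ⟨0, hb⟩), fun j j' h => (Prod.mk.inj (e₀.injective h)).1⟩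
  have hfac : (0 : ℝ) < n.factorial := by exact_mod_cast Nat.factorial_pos n
  have : Nonempty (Fin m ↪ Fin n) := ⟨V⟩
  have hemb : (0 : ℝ) < Fintype.card (Fin m ↪ Fin n) := by exact_mod_cast Fintype.card_pos
  have hb' : (0 : ℝ) < b := by exact_mod_cast hb
  by_contra hcon
  push Not at hcon
  set κ : ℝ := Real.exp (-(2 * (c * n))) with hκ
  let H : (Fin m ↪ Fin n) → ℝ := fun f => (((Finset.univ : Finset (Fin n → Bool)).filter fun z =>
    SchemeRefutes R (c * n) ⊤ ((Formula.mk M Φ).place f z)).card : ℝ)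
  have hsum : (((Finset.univ : Finset ((Fin m ↪ Fin n) × (Fin n → Bool))).filter fun q =>
      SchemeRefutes R (c * n) ⊤ ((Formula.mk M Φ).place q.1 q.2)).card : ℝ) = ∑ f, H f := by
    rw [← Finset.sum_boole, Fintype.sum_prod_type]
    refine Finset.sum_congr rfl fun f _ => ?_
    rw [Finset.sum_boole]
  rw [hsum] at hcon
  set κ' : ℝ := (∑ f, H f) / Fintype.card (Fin m ↪ Fin n) with hκ'
  have hκκ : κ * 2 ^ n < κ' := by
    rw [hκ', lt_div_iff₀ hemb]
    linarith
  have hG : κ' * (n.factorial : ℝ) ≤ ∑ π : Equiv.Perm (Fin n), H (V.trans π.toEmbedding) := by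
    have h1 := AV.sum_emb V H
    rw [hκ', div_mul_eq_mul_div, div_le_iff₀ hemb]
    linarith
  obtain ⟨π₀, σ, hσ, hren⟩ := LIFT.avg_perm4 hb e₀ (fun π => H (V.trans π.toEmbedding)) κ' hG
  set e : Fin m × Fin b ↪ Fin n := e₀.trans π₀.toEmbedding with he
  let fS : (Fin m → Fin b) → (Fin m ↪ Fin n) := fun S => V.trans (π₀ * σ S).toEmbedding
  have hfS : ∀ S j, fS S j = e (j, S j) := by
    intro S j
    change π₀ (σ S (e₀ (j, ⟨0, hb⟩))) = π₀ (e₀ (j, S j))
    rw [hσ]
  -- the rows for one complementation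
  have hrows : ∀ z : Fin n → Bool, (((Finset.univ : Finset (Fin m → Fin b)).filter fun S =>
      SchemeRefutes R (c * n) ⊤ ((Formula.mk M Φ).place (fS S) z)).card : ℝ)
      ≤ κ * (b : ℝ) ^ m := by
    intro z
    refine AVD.few_rows e hnm z d₀ mu γ' c ε hγ'0 hd₀ hlocal heps hpoint hnarrow hkill hJ
      (Finset.univ.filter fun x => SchemeRepresents R (big e z x)) ?_
      (fun S ρ j => (R ρ j).Refutes (c * n) ((Formula.mk M Φ).place (fS S) z) ∧
        ((R ρ j).size : ℝ) ≤ Real.exp (c * n)) ?_ _ ?_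
    · refine le_trans ?_ hR
      rw [← Finset.card_image_of_injective _ (big_injective e z)]
      refine Nat.cast_le.2 (Finset.card_le_card fun y hy => ?_)
      obtain ⟨x, hx, rfl⟩ := Finset.mem_image.1 hy
      rw [Finset.mem_compl, Finset.mem_filter] at hx
      exact Finset.mem_filter.2 ⟨Finset.mem_univ _, fun h => hx ⟨Finset.mem_univ _, h⟩⟩
    · intro ρ j 𝓑 h𝓑
      refine relax_mass hM c γ' hγ'0 Φ mu hno hK e z fS hfS (R ρ j) 𝓑 _ h𝓑 fun x hx => ?_
      obtain ⟨h1, h2⟩ := Finset.mem_filter.1 hx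
      exact (Finset.mem_filter.1 h1).2 ρ h2 j
    · intro S hS
      obtain ⟨G, -, h2, h3⟩ := (Finset.mem_filter.1 hS).2
      refine ⟨G.size, G.label, G.rank, fun u => (G.node u).move, G.root,
        le_trans (Nat.cast_le.2 (cost_size_le R G)) h2, G.label_root, dag_rules G,
        fun u j hu => ⟨h3 u j (move_leaf hu), le_trans (Nat.cast_le.2
          (cost_leaf R G u j (move_leaf hu))) h2⟩⟩
  have hswap : ∑ S, H (fS S) = ∑ z : Fin n → Bool,
      (((Finset.univ : Finset (Fin m → Fin b)).filter fun S =>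
        SchemeRefutes R (c * n) ⊤ ((Formula.mk M Φ).place (fS S) z)).card : ℝ) := by
    simp only [H, ← Finset.sum_boole]
    exact Finset.sum_comm
  have hle : κ' * (b : ℝ) ^ m ≤ 2 ^ n * (κ * (b : ℝ) ^ m) := by
    refine hren.trans ?_
    change ∑ S, H (fS S) ≤ _
    rw [hswap]
    refine (Finset.sum_le_sum fun z _ => hrows z).trans (le_of_eq ?_)
    rw [Finset.sum_const, nsmul_eq_mul, Finset.card_univ, Fintype.card_fun, Fintype.card_bool,
      Fintype.card_fin]
    push_cast
    rfl
  have hbm : (0 : ℝ) < (b : ℝ) ^ m := by positivity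
  have h1 := mul_lt_mul_of_pos_right hκκ hbm
  linarith

open Classical in
/-- one formula: almost complete schemes, search dags of any depth -/
theorem two_formula {n m b M r : ℕ} (hM : 0 < M) (hb : 0 < b) (ε c γ : ℝ) (hc : 0 < c)
    (hcε : 8 * c ≤ ε / 2) (hn2 : Real.log 2 ≤ c * n)
    (hmb : m * b ≤ n) (hnm : n ≤ m * b + 3 * b) (Φ : Fin M → Clause m)
    (hΦ : AVD.Meas9 n b r (ε / 2) c γ (fun e => ⟨(Φ e).var, (Φ e).distinct⟩)
      fun e => (Φ e).sign)
    (J K : ℕ) (hJ : (J : ℝ) ≤ Real.exp (c * n)) (hK : (K : ℝ) ≤ Real.exp (c * n))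
    (Ω : Type) [Fintype Ω] (p : Ω → ℝ) (R : Ω → Scheme n J K) (hp : ∀ ω, 0 ≤ p ω)
    (hp1 : ∑ ω, p ω = 1) (hR : 1 - Real.exp (-(ε * n)) ≤ probRepresents p R) :
    probRefutes p R (c * n) ⊤ (Formula.mk M Φ) ≤ Real.exp (-(c * n)) := by
  have h2n : (0 : ℝ) < 2 ^ n := by positivity
  have hn0 : (0 : ℝ) ≤ n := Nat.cast_nonneg _
  have hcard : Fintype.card (Fin m × Fin b) ≤ Fintype.card (Fin n) := by
    rw [Fintype.card_prod, Fintype.card_fin, Fintype.card_fin, Fintype.card_fin]
    exact hmb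
  obtain ⟨e₀⟩ : Nonempty (Fin m × Fin b ↪ Fin n) := Function.Embedding.nonempty_of_card_le hcard
  have : Nonempty (Fin m ↪ Fin n) :=
    ⟨⟨fun j => e₀ (j, ⟨0, hb⟩), fun j j' h => (Prod.mk.inj (e₀.injective h)).1⟩⟩
  have hemb : (0 : ℝ) < Fintype.card (Fin m ↪ Fin n) := by exact_mod_cast Fintype.card_pos
  have hN : (0 : ℝ) < Fintype.card (Fin m ↪ Fin n) * (2 : ℝ) ^ n := by positivity
  set un : Ω → ℝ := fun ω => (((Finset.univ : Finset (Fin n → Bool)).filter fun x =>
    ¬ SchemeRepresents (R ω) x).card : ℝ) with hun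
  set fr : Ω → ℝ := fun ω => (((Finset.univ :
    Finset ((Fin m ↪ Fin n) × (Fin n → Bool))).filter fun q =>
      SchemeRefutes (R ω) (c * n) ⊤ ((Formula.mk M Φ).place q.1 q.2)).card : ℝ)
        / (Fintype.card (Fin m ↪ Fin n) * (2 : ℝ) ^ n) with hfr
  have hfr1 : ∀ ω, fr ω ≤ 1 := by
    intro ω
    simp only [hfr]
    rw [div_le_one hN]
    have h1 := Finset.card_le_univ ((Finset.univ :
      Finset ((Fin m ↪ Fin n) × (Fin n → Bool))).filter fun q =>
      SchemeRefutes (R ω) (c * n) ⊤ ((Formula.mk M Φ).place q.1 q.2))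
    rw [Fintype.card_prod, Fintype.card_fun, Fintype.card_bool, Fintype.card_fin] at h1
    exact_mod_cast h1
  have hun' : ∀ ω, (((Finset.univ : Finset (Fin n → Bool)).filter fun x =>
      SchemeRepresents (R ω) x).card : ℝ) / 2 ^ n = 1 - un ω / 2 ^ n := by
    intro ω
    have h1 := Finset.card_filter_add_card_filter_not
      (s := (Finset.univ : Finset (Fin n → Bool))) (fun x => SchemeRepresents (R ω) x)
    rw [Finset.card_univ, Fintype.card_fun, Fintype.card_bool, Fintype.card_fin] at h1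
    have h2 : (((Finset.univ : Finset (Fin n → Bool)).filter fun x =>
      SchemeRepresents (R ω) x).card : ℝ) + un ω = 2 ^ n := by
      simp only [hun]
      exact_mod_cast h1
    rw [eq_sub_iff_add_eq, ← add_div, h2, div_self h2n.ne']
  -- the schemes which do not represent nearly all assignments
  set δ : ℝ := Real.exp (-(ε / 2 * n)) with hδ
  have hδ0 : 0 < δ := Real.exp_pos _
  have hmark : ∑ ω, p ω * (if un ω ≤ δ * 2 ^ n then 0 else 1) ≤ δ := by
    have h1 : ∑ ω, p ω * (un ω / 2 ^ n) ≤ δ * δ := by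
      have h2 : probRepresents p R = 1 - ∑ ω, p ω * (un ω / 2 ^ n) := by
        rw [probRepresents, ← hp1, ← Finset.sum_sub_distrib]
        refine Finset.sum_congr rfl fun ω _ => ?_
        rw [hun' ω]
        ring
      have h3 : δ * δ = Real.exp (-(ε * n)) := by
        rw [hδ, ← Real.exp_add]
        congr 1
        ring
      rw [h3]
      linarith
    have h4 : δ * ∑ ω, p ω * (if un ω ≤ δ * 2 ^ n then 0 else 1)
        ≤ ∑ ω, p ω * (un ω / 2 ^ n) := by
      rw [Finset.mul_sum]
      refine Finset.sum_le_sum fun ω _ => ?_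
      rw [mul_left_comm]
      refine mul_le_mul_of_nonneg_left ?_ (hp ω)
      split_ifs with h
      · rw [mul_zero]
        exact div_nonneg (Nat.cast_nonneg _) h2n.le
      · rw [mul_one, le_div_iff₀ h2n]
        exact (not_le.1 h).le
    exact le_of_mul_le_mul_left (h4.trans h1) hδ0
  have hone : ∀ ω, fr ω ≤ (if un ω ≤ δ * 2 ^ n then (0 : ℝ) else 1)
      + Real.exp (-(2 * (c * n))) := by
    intro ω
    split_ifs with h
    · rw [zero_add]
      simp only [hfr]
      rw [div_le_iff₀ hN]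
      exact two_fixed hM hb (ε / 2) c γ hmb hnm Φ hΦ J K hJ hK (R ω) h
    · have := Real.exp_pos (-(2 * (c * n)))
      linarith [hfr1 ω]
  have htot : probRefutes p R (c * n) ⊤ (Formula.mk M Φ) ≤ δ + Real.exp (-(2 * (c * n))) := by
    calc probRefutes p R (c * n) ⊤ (Formula.mk M Φ) = ∑ ω, p ω * fr ω := rfl
      _ ≤ ∑ ω, p ω * ((if un ω ≤ δ * 2 ^ n then (0 : ℝ) else 1)
          + Real.exp (-(2 * (c * n)))) :=
          Finset.sum_le_sum fun ω _ => mul_le_mul_of_nonneg_left (hone ω) (hp ω)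
      _ = ∑ ω, p ω * (if un ω ≤ δ * 2 ^ n then (0 : ℝ) else 1)
          + Real.exp (-(2 * (c * n))) := by
          simp only [mul_add, Finset.sum_add_distrib]
          rw [← Finset.sum_mul, hp1, one_mul]
      _ ≤ _ := by linarith
  have h5 : δ ≤ Real.exp (-(2 * (c * n))) := by
    apply Real.exp_le_exp.2
    have := mul_le_mul_of_nonneg_right hcε hn0
    have h6 : 0 ≤ c * n := by positivity
    linarith
  have h6 : Real.exp (-(2 * (c * n))) ≤ 1 / 2 * Real.exp (-(c * n)) := by
    have h7 : Real.exp (-(2 * (c * n))) = Real.exp (-(c * n)) * Real.exp (-(c * n)) := by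
      rw [← Real.exp_add]
      congr 1
      ring
    have h8 : Real.exp (-(c * n)) ≤ 1 / 2 := by
      have h9 : Real.exp (-(c * n)) ≤ Real.exp (-Real.log 2) := Real.exp_le_exp.2 (by linarith)
      rw [Real.exp_neg (Real.log 2), Real.exp_log (by norm_num)] at h9
      linarith
    rw [h7]
    exact mul_le_mul_of_nonneg_right h8 (Real.exp_pos _).le
  linarith

/-- one formula with a pseudo-measure -/
theorem one_formula {n m b M r : ℕ} (hM : 0 < M) (hb : 0 < b) (hn : 0 < n) (ε c γ η : ℝ)
    (hγ0 : 0 < γ) (hγ1 : γ ≤ 1) (hγη : γ ≤ η / 4) (hmb : m * b ≤ n) (hnm : n ≤ m * b + 3 * b)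
    (Φ : Fin M → Clause m)
    (hΦ : AVD.Meas9 n b (r + 1) ε c (γ / 2) (fun e => ⟨(Φ e).var, (Φ e).distinct⟩)
      fun e => (Φ e).sign)
    (J K : ℕ) (hJ : (J : ℝ) ≤ Real.exp (c * n)) (hK : (K : ℝ) ≤ Real.exp (c * n))
    (hc : 0 ≤ c)
    (Ω : Type) [Fintype Ω] (p : Ω → ℝ) (R : Ω → Scheme n J K) (hp : ∀ ω, 0 ≤ p ω)
    (hp1 : ∑ ω, p ω = 1) :
    probRepresents p R + probRefutes p R (c * n) (r * n : ℕ) (Formula.mk M Φ) < 1 + η := by
  classical
  unfold AVD.Meas9 at hΦ
  obtain ⟨d₀, q, k, mu, P, γ', θ₁, ν, hrow, hγ'0, hθ₁0, hθ₁γ', hν0, -, hqk', hP0, htot₁, htot₂,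
    hcount', -, -, -, -, -, hpos, hdeep, hno⟩ := hΦ
  have hθ₁γ : θ₁ ≤ γ / 2 := by linarith
  have hq1 : 1 ≤ q := by
    rcases Nat.eq_zero_or_pos q with h | h
    · rw [h, mul_zero] at hqk'
      have := Nat.mul_pos (show 0 < r + 1 by omega) hn
      omega
    · exact h
  have hqk : r * n ≤ k * q := by
    rw [Nat.add_mul] at hqk'
    omega
  have hcount := le_trans (le_mul_of_one_le_right (by positivity) (by norm_num)) hcount'
  have htot : P * γ' + P * θ₁ + (2 * Real.exp (c * n)) ^ (k + 1) * ν < γ := by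
    have h1 : (2 * Real.exp (c * n)) ^ (k + 1) * ν ≤ (4 * Real.exp (c * n)) ^ (k + 1) * ν := by
      refine mul_le_mul_of_nonneg_right (pow_le_pow_left₀ (by positivity) ?_ _) hν0
      have := Real.exp_pos (c * n)
      linarith
    have h2 : 0 ≤ (4 * Real.exp (c * n)) ^ (k + 1) * ν := by positivity
    linarith
  have hcard : Fintype.card (Fin m × Fin b) ≤ Fintype.card (Fin n) := by
    rw [Fintype.card_prod, Fintype.card_fin, Fintype.card_fin, Fintype.card_fin]
    exact hmb
  obtain ⟨e₀⟩ : Nonempty (Fin m × Fin b ↪ Fin n) := Function.Embedding.nonempty_of_card_le hcard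
  let V : Fin m ↪ Fin n :=
    ⟨fun j => e₀ (j, ⟨0, hb⟩), fun j j' h => (Prod.mk.inj (e₀.injective h)).1⟩
  by_contra hcon
  push Not at hcon
  set h : ℝ := c * n with hh
  set Φ' : Formula m := Formula.mk M Φ with hΦ'
  have hfac : (0 : ℝ) < n.factorial := by exact_mod_cast Nat.factorial_pos n
  have h2n : (0 : ℝ) < 2 ^ n := by positivity
  have : Nonempty (Fin m ↪ Fin n) := ⟨V⟩
  have hemb : (0 : ℝ) < Fintype.card (Fin m ↪ Fin n) := by exact_mod_cast Fintype.card_pos
  -- average over the translations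
  set α : ℝ := probRepresents p R with hα
  let p' : Ω × (Fin n → Bool) → ℝ := fun ω => p ω.1 / 2 ^ n
  have hp' : ∀ ω, 0 ≤ p' ω := fun ω => div_nonneg (hp _) h2n.le
  have hp'1 : ∑ ω, p' ω = 1 := by
    rw [Fintype.sum_prod_type, ← hp1]
    refine Finset.sum_congr rfl fun ω _ => ?_
    simp only [p']
    rw [Finset.sum_const, Finset.card_univ, Fintype.card_fun, Fintype.card_bool, Fintype.card_fin,
      nsmul_eq_mul]
    push_cast
    field_simp
  -- the renaming
  let H : (Fin m ↪ Fin n) → ℝ := fun f => ∑ ω : Ω × (Fin n → Bool),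
      if SchemeRefutes (R ω.1) h (r * n : ℕ) (Φ'.place f ω.2) then p' ω else 0
  have hH : (1 - α + η) * Fintype.card (Fin m ↪ Fin n) ≤ ∑ f, H f := by
    have h1 : 1 - α + η ≤ probRefutes p R h (r * n : ℕ) Φ' := by linarith
    exact (mul_le_mul_of_nonneg_right h1 hemb.le).trans (le_of_eq
      (avg_prod p (fun ω f z => SchemeRefutes (R ω) h (r * n : ℕ) (Φ'.place f z))
        (Fintype.card (Fin m ↪ Fin n)) (2 ^ n) hemb.ne' h2n.ne').symm)
  have hG : (1 - α + η) * (n.factorial : ℝ)
      ≤ ∑ π : Equiv.Perm (Fin n), H (V.trans π.toEmbedding) := by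
    have h1 := AV.sum_emb V H
    have h2 := mul_le_mul_of_nonneg_left hH hfac.le
    rw [← h1] at h2
    refine le_of_mul_le_mul_left ?_ hemb
    calc _ = n.factorial * ((1 - α + η) * Fintype.card (Fin m ↪ Fin n)) := by ring
      _ ≤ _ := h2
  obtain ⟨π₀, σ, hσ, hren⟩ := LIFT.avg_perm4 hb e₀ (fun π => H (V.trans π.toEmbedding))
    (1 - α + η) hG
  set e : Fin m × Fin b ↪ Fin n := e₀.trans π₀.toEmbedding with he
  let fS : (Fin m → Fin b) → (Fin m ↪ Fin n) := fun S => V.trans (π₀ * σ S).toEmbedding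
  have hfS : ∀ S j, fS S j = e (j, S j) := by
    intro S j
    change π₀ (σ S (e₀ (j, ⟨0, hb⟩))) = π₀ (e₀ (j, S j))
    rw [hσ]
  let xx : (Fin m × Fin b → Bool) → (Fin n → Bool) → Fin n → Bool := fun x z => big e z x
  let 𝒳 : Ω × (Fin n → Bool) → Finset (Fin m × Fin b → Bool) := fun ω =>
    Finset.univ.filter fun x => SchemeRepresents (R ω.1) (xx x ω.2)
  let 𝒮 : Ω × (Fin n → Bool) → Finset (Fin m → Fin b) := fun ω => Finset.univ.filter fun S =>
    SchemeRefutes (R ω.1) h (r * n : ℕ) (Φ'.place (fS S) ω.2)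
  have hcardY : ((Fintype.card (Fin m → Fin b) : ℕ) : ℝ) = (b : ℝ) ^ m := by
    rw [Fintype.card_fun, Fintype.card_fin, Fintype.card_fin, Nat.cast_pow]
  have : Nonempty (Fin m → Fin b) := ⟨fun _ => ⟨0, hb⟩⟩
  have htrans : ∀ (x : Fin m × Fin b → Bool) (ω : Ω),
      ((Finset.univ : Finset (Fin n → Bool)).filter fun y => SchemeRepresents (R ω) y).card
        = ((Finset.univ : Finset (Fin n → Bool)).filter fun y =>
          SchemeRepresents (R ω) (xx x y)).card := by
    intro x ω
    refine Finset.card_bij (fun (y : Fin n → Bool) _ => (fun v =>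
      xor (Function.extend e x (fun _ => false) v) (y v) : Fin n → Bool)) ?_ ?_ ?_
    · intro y hy
      rw [Finset.mem_filter] at hy ⊢
      refine ⟨Finset.mem_univ _, ?_⟩
      have h12 : xx x (fun v => xor (Function.extend e x (fun _ => false) v) (y v)) = y := by
        funext v
        simp only [xx, big]
        cases Function.extend e x (fun _ => false) v <;> cases y v <;> rfl
      rw [h12]
      exact hy.2
    · intro y _ y' _ h
      funext v
      have := congrFun h v
      revert this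
      cases Function.extend e x (fun _ => false) v <;> cases y v <;> cases y' v <;> simp
    · intro y hy
      rw [Finset.mem_filter] at hy
      refine ⟨xx x y, ?_, ?_⟩
      · rw [Finset.mem_filter]
        exact ⟨Finset.mem_univ _, hy.2⟩
      · funext v
        simp only [xx, big]
        cases Function.extend e x (fun _ => false) v <;> cases y v <;> rfl
  -- a good scheme
  have hW : (0 : ℝ) < (b : ℝ) ^ m * 2 ^ (m * b) := by
    have : (0 : ℝ) < b := by exact_mod_cast hb
    positivity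
  obtain ⟨ω, -, hrect⟩ := LIFT.average4 p' (fun _ => (0 : ℝ)) hp' hp'1
    (fun _ => le_rfl) mu (2 ^ (m * b)) (by positivity) γ η α 1 0 hγ0 hγη hγ1 one_pos (by simp)
    (by
      rw [zero_div]
      linarith) hrow (by
      intro u v hu hv
      rw [hcardY]
      have h13 := hpos u v hu hv
      have h14 : θ₁ * ((b : ℝ) ^ m * 2 ^ (m * b)) ≤ γ / 2 * ((b : ℝ) ^ m * 2 ^ (m * b)) :=
        mul_le_mul_of_nonneg_right hθ₁γ hW.le
      linarith) 𝒳 𝒮 (fun x => by
        refine le_of_eq ?_
        rw [hα, probRepresents, Fintype.sum_prod_type]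
        refine Finset.sum_congr rfl fun ω _ => ?_
        simp only [𝒳, Finset.mem_filter, Finset.mem_univ, true_and, p']
        rw [← Finset.sum_filter, Finset.sum_const, nsmul_eq_mul, htrans x ω]
        ring) (by
        rw [hcardY]
        refine hren.trans (le_of_eq ?_)
        simp only [H]
        rw [Finset.sum_comm]
        refine Finset.sum_congr rfl fun ω _ => ?_
        rw [← Finset.sum_filter, Finset.sum_const, nsmul_eq_mul, mul_comm])
  -- the search dags
  obtain ⟨S₁, hS₁⟩ : (𝒮 ω).Nonempty := by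
    rw [Finset.nonempty_iff_ne_empty]
    intro hemp
    rw [hemp, Finset.sum_empty, hcardY] at hrect
    have := mul_pos hγ0 hW
    linarith
  obtain ⟨G₁, -, -, -⟩ := (Finset.mem_filter.1 hS₁).2
  have hG : ∀ S, ∃ G : SearchDag n J,
      S ∈ 𝒮 ω → (G.cost (R ω.1) : ℝ) ≤ Real.exp h ∧ G.rank G.root ≤ r * n ∧
      G.Refutes (R ω.1) h (Φ'.place (fS S) ω.2) := by
    intro S
    by_cases hS : S ∈ 𝒮 ω
    · obtain ⟨G, h1, h2, h3⟩ := (Finset.mem_filter.1 hS).2
      exact ⟨G, fun _ => ⟨h2, by exact_mod_cast h1, h3⟩⟩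
    · exact ⟨G₁, fun h' => absurd h' hS⟩
  choose G hG using hG
  have hfinal := AVD.dag_bound mu (2 ^ (m * b)) θ₁ γ' ν P (Real.exp h) (by positivity) hθ₁0 hγ'0
    hν0 d₀ q k hq1 (Real.one_le_exp (mul_nonneg hc (Nat.cast_nonneg _))) hJ hcount
    (fun x => xx x ω.2) (𝒮 ω) (𝒳 ω) (fun S => (G S).size) (fun S => (G S).label)
    (fun S => (G S).rank) (fun S u => ((G S).node u).move) (fun S => (G S).root)
    (fun S _ => dag_rules (G S)) (fun S _ => (G S).label_root)
    (fun S hS => (hG S hS).2.1.trans hqk)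
    (fun S hS => le_trans (by exact_mod_cast cost_size_le (R ω.1) (G S)) (hG S hS).1)
    ?_ ?_ (by rw [hcardY]; exact hpos)
  · have h15 : (P * γ' + P * θ₁ + (2 * Real.exp h) ^ (k + 1) * ν) * ((b : ℝ) ^ m * 2 ^ (m * b))
        < γ * ((b : ℝ) ^ m * 2 ^ (m * b)) := mul_lt_mul_of_pos_right htot hW
    rw [hcardY] at hfinal hrect
    linarith
  · -- leaves
    intro ρ j 𝒮' 𝒳' h𝒮' h𝒳'
    rw [hcardY]
    refine relax_mass hM c γ' hγ'0 Φ mu hno hK e ω.2 fS hfS (R ω.1 ρ j) 𝒮' 𝒳' (fun S hS => ?_)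
      fun x hx => (Finset.mem_filter.1 (h𝒳' x hx).1).2 ρ (h𝒳' x hx).2 j
    obtain ⟨hS1, u, hu1, hu2⟩ := h𝒮' S hS
    obtain ⟨h16, -, h17⟩ := hG S hS1
    have h18 := h17 u j (move_leaf hu2)
    have h19 := cost_leaf (R ω.1) (G S) u j (move_leaf hu2)
    rw [hu1] at h18 h19
    refine ⟨h18, le_trans ?_ h16⟩
    exact_mod_cast h19
  · -- deep labels
    intro ρ hd hρ S
    rcases BB.agree_cube e hnm ω.2 ρ with h20 | ⟨F, a, hF1, hF2, hF⟩
    · have h21 : (Finset.univ.filter fun x => AVD.Ext (xx x ω.2) ρ) = ∅ := by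
        rw [Finset.eq_empty_iff_forall_notMem]
        intro x hx
        exact h20 x (Finset.mem_filter.1 hx).2
      rw [h21, Finset.sum_empty]
      positivity
    · refine le_trans (le_of_eq ?_) (hdeep F a S (hd.trans hF1) (hF2.trans hρ))
      rw [Finset.sum_filter]
      refine Finset.sum_congr rfl fun x _ => ?_
      have h22 : AVD.Ext (xx x ω.2) ρ ↔ ∀ p ∈ F, x p = a p := hF x
      by_cases h23 : ∀ p ∈ F, x p = a p
      · rw [BB.ind, if_pos h23, if_pos (h22.2 h23), one_mul]
      · rw [BB.ind, if_neg h23, if_neg (fun h => h23 (h22.1 h)), zero_mul]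

/-- clauses as pairs -/
def clauseEquiv (m : ℕ) : Clause m ≃ (Fin 3 ↪ Fin m) × (Fin 3 → Bool) where
  toFun C := (⟨C.var, C.distinct⟩, C.sign)
  invFun q := ⟨q.1, q.2, q.1.injective⟩
  left_inv _ := rfl
  right_inv _ := rfl

/-- **Theorem.** Let `Δ ≥ 1` and `ε > 0`. There is an integer `b ≥ Δ` such that for each `r` there
is `c > 0` with the following property for all `η, δ > 0` and all large `n`, where `m` is the integer
part of `n / b`. Among all formulas `Φ` with `m` variables and `Δ m` clauses at least a fraction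
`1 - δ` has the following two properties. Every assignment satisfies at most a fraction
`7 / 8 + 1 / sqrt (2 Δ)` of the clauses. For each random scheme `R` for 3-SAT on `n` variables
(a probability distribution `p` on schemes `R ω`) with lists of at most `exp (c n)` relaxations and
at most `exp (c n)` cuts for each set of clauses, the following holds for the refutations, with the
parameter `c n`, of `Φ` placed on the `n` variables in a uniformly random way: the probability that
`R` represents a uniformly random assignment plus the probability that `R` refutes the placed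
formula in depth `r n` is less than `1 + η`; and if the probability that `R` represents a random
assignment is at least `1 - exp (- ε n)`, then the probability that `R` refutes the placed formula in
some depth is at most `exp (- c n)`. -/
theorem result (Δ : ℕ) (hΔ : 0 < Δ) (ε : ℝ) (hε : 0 < ε) :
    ∃ b : ℕ, Δ ≤ b ∧ ∀ r : ℕ, ∃ c : ℝ, 0 < c ∧ ∀ η δ : ℝ, 0 < η → 0 < δ → ∃ n₀ : ℕ,
      ∀ n m : ℕ, n₀ ≤ n → m = n / b → (1 - δ) * Nat.card (Fin (Δ * m) → Clause m) ≤
        Nat.card {Φ : Fin (Δ * m) → Clause m //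
          (∀ x, (Formula.mk (Δ * m) Φ).value x ≤ 7 / 8 + 1 / Real.sqrt (2 * Δ)) ∧
          ∀ (J K : ℕ), (J : ℝ) ≤ Real.exp (c * n) → (K : ℝ) ≤ Real.exp (c * n) →
            ∀ (Ω : Type) [Fintype Ω] (p : Ω → ℝ) (R : Ω → Scheme n J K),
            (∀ ω, 0 ≤ p ω) → ∑ ω, p ω = 1 →
            probRepresents p R + probRefutes p R (c * n) (r * n : ℕ) (Formula.mk (Δ * m) Φ)
              < 1 + η ∧
            (1 - Real.exp (-(ε * n)) ≤ probRepresents p R →
              probRefutes p R (c * n) ⊤ (Formula.mk (Δ * m) Φ) ≤ Real.exp (-(c * n)))} := by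
  classical
  obtain ⟨b, hb, hΔb, hcore⟩ := AVD.core9 Δ hΔ (ε / 2) (by positivity)
  refine ⟨b, hΔb, fun r => ?_⟩
  obtain ⟨c, hc, hcε, hcore⟩ := hcore (r + 1)
  refine ⟨c, hc, fun η δ hη hδ => ?_⟩
  have hΔ' : (0 : ℝ) < Δ := by exact_mod_cast hΔ
  set κ : ℝ := 1 / Real.sqrt (2 * Δ) with hκ
  have hκ0 : 0 < κ := by positivity
  have hκ1 : 1 ≤ 2 * κ ^ 2 * Δ := by
    rw [hκ, div_pow, one_pow, Real.sq_sqrt (by positivity)]
    apply le_of_eq
    field_simp
  set γ : ℝ := min (η / 4) 1 with hγ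
  have hγ0 : 0 < γ := lt_min (by positivity) one_pos
  have hγ1 : γ ≤ 1 := min_le_right _ _
  have hγη : γ ≤ η / 4 := min_le_left _ _
  obtain ⟨n₀, hn₀⟩ := hcore (γ / 2) (δ / 2) (by positivity) (by positivity)
  obtain ⟨m₀, hm₀⟩ := AV.value_rand Δ κ (δ / 2) hκ0 (by positivity) hκ1
  obtain ⟨n₁, hn₁⟩ := exists_nat_ge (Real.log 2 / c)
  refine ⟨n₀ + n₁ + b * (m₀ + 1), fun n m hn hmn => ?_⟩
  obtain ⟨hm, hmb, hnm, G, hG, hmeas⟩ := hn₀ n (by omega) m hmn
  have hn0 : 0 < n := by
    rcases Nat.eq_zero_or_pos n with h | h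
    · rw [h, Nat.zero_div] at hmn
      omega
    · exact h
  have hn2 : Real.log 2 ≤ c * n := by
    rw [div_le_iff₀ hc] at hn₁
    have h1 : (n₁ : ℝ) ≤ n := by exact_mod_cast (by omega : n₁ ≤ n)
    nlinarith
  have hm₀m : m₀ ≤ m := by
    rw [hmn, Nat.le_div_iff_mul_le hb]
    nlinarith
  have hval := hm₀ m hm₀m
  have hM : 0 < Δ * m := Nat.mul_pos hΔ hm
  have hM' : (0 : ℝ) < (Δ * m : ℕ) := by exact_mod_cast hM
  let X : Type := (Fin 3 ↪ Fin m) × (Fin 3 → Bool)
  let E : (Fin (Δ * m) → Clause m) ≃ (Fin (Δ * m) → X) :=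
    Equiv.arrowCongr (Equiv.refl _) (clauseEquiv m)
  set N : ℝ := (Fintype.card X : ℝ) ^ (Δ * m) with hN
  have hcardN : (Nat.card (Fin (Δ * m) → Clause m) : ℝ) = N := by
    rw [Nat.card_congr E, Nat.card_eq_fintype_card, Fintype.card_fun, Fintype.card_fin,
      Nat.cast_pow]
  set Good : (Fin (Δ * m) → Clause m) → Prop := fun Φ =>
    (∀ x, (Formula.mk (Δ * m) Φ).value x ≤ 7 / 8 + κ) ∧
          ∀ (J K : ℕ), (J : ℝ) ≤ Real.exp (c * n) → (K : ℝ) ≤ Real.exp (c * n) →
            ∀ (Ω : Type) [Fintype Ω] (p : Ω → ℝ) (R : Ω → Scheme n J K),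
            (∀ ω, 0 ≤ p ω) → ∑ ω, p ω = 1 →
            probRepresents p R + probRefutes p R (c * n) (r * n : ℕ) (Formula.mk (Δ * m) Φ)
              < 1 + η ∧
            (1 - Real.exp (-(ε * n)) ≤ probRepresents p R →
              probRefutes p R (c * n) ⊤ (Formula.mk (Δ * m) Φ) ≤ Real.exp (-(c * n))) with hGood
  change (1 - δ) * (Nat.card (Fin (Δ * m) → Clause m) : ℝ) ≤ (Nat.card {Φ // Good Φ} : ℝ)
  have h1 : Nat.card {Φ // Good Φ}
      = ((Finset.univ : Finset (Fin (Δ * m) → X)).filter fun ψ => Good (E.symm ψ)).card := by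
    rw [Nat.card_congr (E.subtypeEquiv (q := fun ψ => Good (E.symm ψ)) fun Φ => by
      rw [Equiv.symm_apply_apply]), Nat.card_eq_fintype_card, Fintype.card_subtype]
  -- the two exceptional sets
  set B₁ : Finset (Fin (Δ * m) → X) := (Finset.univ : Finset (Fin (Δ * m) → X)).filter fun φ =>
        ∃ y : Fin m → Bool, (((Finset.univ : Finset (Fin (Δ * m))).filter fun e =>
          φ e ∈ AV.fl y).card : ℝ) < (1 / 8 - κ) * (Δ * m : ℕ) with hB₁
  set B₂ : Finset (Fin (Δ * m) → X) := (Finset.univ : Finset (Fin (Δ * m) → X)).filter fun φ =>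
        (fun e => (φ e).1) ∈ Gᶜ with hB₂
  have hB₂card : (B₂.card : ℝ) ≤ δ / 2 * N := by
    have h2 : B₂.card = (Gᶜ ×ˢ (Finset.univ : Finset (Fin (Δ * m) → Fin 3 → Bool))).card := by
      refine Finset.card_bij (fun φ _ => (fun e => (φ e).1, fun e => (φ e).2)) ?_ ?_ ?_
      · intro φ hφ
        rw [Finset.mem_product]
        exact ⟨(Finset.mem_filter.1 hφ).2, Finset.mem_univ _⟩
      · intro φ _ φ' _ h
        obtain ⟨h3, h4⟩ := Prod.mk.inj h
        funext e
        exact Prod.ext (congrFun h3 e) (congrFun h4 e)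
      · rintro ⟨a, s⟩ h
        refine ⟨fun e => (a e, s e), Finset.mem_filter.2 ⟨Finset.mem_univ _, ?_⟩, rfl⟩
        exact (Finset.mem_product.1 h).1
    rw [h2, Finset.card_product, Finset.card_univ, Fintype.card_fun (α := Fin (Δ * m)),
      Fintype.card_fin, hN, Fintype.card_prod]
    push_cast
    rw [mul_pow, ← mul_assoc]
    exact mul_le_mul_of_nonneg_right hG (by positivity)
  have hcov : (Finset.univ : Finset (Fin (Δ * m) → X)) ⊆
      ((Finset.univ : Finset (Fin (Δ * m) → X)).filter fun ψ => Good (E.symm ψ)) ∪ (B₁ ∪ B₂) := by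
    intro ψ _
    rw [Finset.mem_union, Finset.mem_union]
    by_cases h2 : ψ ∈ B₁
    · exact Or.inr (Or.inl h2)
    by_cases h3 : ψ ∈ B₂
    · exact Or.inr (Or.inr h3)
    refine Or.inl (Finset.mem_filter.2 ⟨Finset.mem_univ _, ?_, ?_⟩)
    · intro y
      rw [value_eq hM]
      have h4 : (1 / 8 - κ) * (Δ * m : ℕ) ≤ (((Finset.univ : Finset (Fin (Δ * m))).filter fun e =>
          ψ e ∈ AV.fl y).card : ℝ) := by
        by_contra hcon
        exact h2 (Finset.mem_filter.2 ⟨Finset.mem_univ _, y, not_le.1 hcon⟩)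
      have h5 : ((Finset.univ : Finset (Fin (Δ * m))).filter fun e => ψ e ∈ AV.fl y)
          = (Finset.univ : Finset (Fin (Δ * m))).filter fun e =>
            ∀ i, y (((E.symm ψ) e).var i) ≠ ((E.symm ψ) e).sign i := by
        ext e
        rw [Finset.mem_filter, Finset.mem_filter, AV.fl, Finset.mem_filter]
        simp only [Finset.mem_univ, true_and]
        rfl
      rw [h5] at h4
      have h6 : 1 / 8 - κ ≤ (((Finset.univ : Finset (Fin (Δ * m))).filter fun e =>
            ∀ i, y (((E.symm ψ) e).var i) ≠ ((E.symm ψ) e).sign i).card : ℝ) / (Δ * m : ℕ) := by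
        rw [le_div_iff₀ hM']
        exact h4
      linarith
    · intro J K hJ hK Ω _ p R hp hp1
      have h4 : (fun e => (ψ e).1) ∈ G := by
        by_contra hcon
        exact h3 (Finset.mem_filter.2 ⟨Finset.mem_univ _, Finset.mem_compl.2 hcon⟩)
      exact ⟨one_formula hM hb hn0 (ε / 2) c γ η hγ0 hγ1 hγη hmb hnm (E.symm ψ) (hmeas _ h4 _) J K hJ hK
          hc.le Ω p R hp hp1,
        two_formula hM hb ε c (γ / 2) hc hcε hn2 hmb hnm (E.symm ψ) (hmeas _ h4 _) J K hJ hK
          Ω p R hp hp1⟩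
  have h2 := (Finset.card_le_card hcov).trans ((Finset.card_union_le _ _).trans
    (Nat.add_le_add_left (Finset.card_union_le _ _) _))
  have h3 : N ≤ (((Finset.univ : Finset (Fin (Δ * m) → X)).filter fun ψ =>
      Good (E.symm ψ)).card : ℝ) + (B₁.card + B₂.card) := by
    have h4 : ((Finset.univ : Finset (Fin (Δ * m) → X)).card : ℝ) = N := by
      rw [Finset.card_univ, Fintype.card_fun, Fintype.card_fin, Nat.cast_pow]
    rw [← h4]
    exact_mod_cast h2
  rw [hcardN, h1]
  have h5 : (B₁.card : ℝ) ≤ δ / 2 * N := hval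
  linarith

end Pool.Agent.Results.MP_b6562f_lc.RandomThreeSatDags
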