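import Pool.Agent.Helper74.WPP.Top

/-!
# Interconnected bicircular and cobicircular minors: the conflicting elements split

Problem MP_5165fa_co (Geelen).  For all integers `k ≥ 1` and `q ≥ 0` there is an integer `n` such
that every finite matroid `M` with

* minors `N₁ = M / C₁ \ D₁ ≅ B(G_n^+)` and `N₂ = M / C₂ \ D₂ ≅ B^*(G_n^+)` on disjoint ground sets
  `E₁` and `E₂`,
* `κ_M(E₁, E₂) ≥ n`,
* sets `F`, `G` containing together all conflicting elements (contracted for `N₁`, deleted for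
  `N₂`), such that not contracting `F` changes the rank of `E₁` by at most `q`, and, dually, not
  deleting `G` changes the rank of `E₂` in the dual by at most `q`,

has a `U_{k,2k}`-minor.
-/

namespace Pool.Agent.Results.MP_5165fa_co.SplitConflicts

open Set BIC BICS
open scoped Matroid

universe u

theorem result (k : ℕ) (hk : 0 < k) (q : ℕ) : ∃ n : ℕ, ∀ (α : Type u) (M : Matroid α), M.Finite →
    ∀ C₁ D₁ C₂ D₂ F G : Set α, C₁ ⊆ M.E → D₁ ⊆ M.E → C₂ ⊆ M.E → D₂ ⊆ M.E →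
    Disjoint C₁ D₁ → Disjoint C₂ D₂ → Disjoint (M ／ C₁ ＼ D₁).E (M ／ C₂ ＼ D₂).E →
    IsBicircular (M ／ C₁ ＼ D₁) (GPlus n) →
    IsBicircular (M ／ C₂ ＼ D₂)✶ (GPlus n) →
    (∀ X : Set α, (M ／ C₁ ＼ D₁).E ⊆ X → X ⊆ M.E \ (M ／ C₂ ＼ D₂).E →
      (n : ℕ∞) + M.eRk M.E ≤ M.eRk X + M.eRk (M.E \ X)) →
    C₁ ∩ D₂ ⊆ F ∪ G →
    (M ／ (C₁ \ F)).eRk (M ／ C₁ ＼ D₁).E ≤ (M ／ C₁).eRk (M ／ C₁ ＼ D₁).E + q →
    (M✶ ／ (D₂ \ G)).eRk (M ／ C₂ ＼ D₂).E ≤ (M✶ ／ D₂).eRk (M ／ C₂ ＼ D₂).E + q →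
    ∃ N : Matroid α, N ≤m M ∧ N.E.ncard = 2 * k ∧ ∀ B, N.IsBase B ↔ B ⊆ N.E ∧ B.ncard = k :=
  split_conflicts hk q

end Pool.Agent.Results.MP_5165fa_co.SplitConflicts
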